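import Mathlib
import Pool.Agent.Helper669.KCohen

set_option autoImplicit false

/-!
# The strong polarized relation at the size of the power set of a successor cardinal
-/

namespace Pool.Agent.Results.MP_5d9fac_lc.CohenReals

open Cardinal Pool.Agent.Helper669.Forcing Pool.Agent.Helper669.K

/-- For every regular cardinal `κ ≥ ℵ₂` (in particular for every successor cardinal `κ ≥ ℵ₂`)
there are a forcing notion `P` and a cardinal `ν > κ` such that it is forced that all cardinals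
are preserved, `κ` is regular, `2 ^ κ = ν`, and the strong polarized relation
`(ν, κ) → (ν, κ)` for two colours holds. -/
theorem result (κ : Cardinal.{0}) (hκ : κ.IsRegular) (hκ1 : ℵ₁ < κ) :
    ∃ (P : Type) (_ : Preorder P) (ν : Cardinal.{0}), Nonempty P ∧ κ < ν ∧ ∀ p : P,
      p ∈ CardinalsPreserved.{0, 0} P ∧ p ∈ StaysRegular P κ ∧
      p ∈ PowerSize P κ.ord.ToType ν.ord.ToType ∧
      p ∈ Polarized P ν.ord.ToType κ.ord.ToType := by
  obtain ⟨L, ρ, hκL, hL, h2, hρ⟩ := exists_singular κ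
  have hcc : ∀ (ι : Type) (f : ι → CC L), ℵ₀ < #ι → ∃ i j, i ≠ j ∧ ∃ r, r ≤ f i ∧ r ≤ f j :=
    fun ι f hι => CC.ccc ι f hι
  have hN : #(2 ^ #L : Cardinal.{0}).ord.ToType = 2 ^ #L := mk_ord_toType _
  refine ⟨CC L, inferInstance, 2 ^ #L, ⟨⟨∅, Set.finite_empty, fun _ _ _ _ h => absurd h (by simp)⟩⟩,
    hκL.trans (cantor _), fun p => ⟨?_, ?_, ?_, ?_⟩⟩
  · exact cardinalsPreserved_of_ccc hcc p
  · exact staysRegular_of_cc le_rfl hκ (aleph0_lt_aleph_one.trans hκ1) hcc p
  · exact powerSize_cohen hκ1 ρ hL hκL h2 hρ hN p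
  · exact polarized_cohen hκ hκ1 ρ hL hκL h2 hρ hN p

end Pool.Agent.Results.MP_5d9fac_lc.CohenReals
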